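import Mathlib

set_option autoImplicit false

namespace Pool.Agent.Results.MP_482303_co.WreathAut

open Set

/-- `σ` maps the block set `𝓑` onto itself. -/
def IsAut {α : Type} (𝓑 : Set (Set α)) (σ : Equiv.Perm α) : Prop :=
  ∀ X, σ '' X ∈ 𝓑 ↔ X ∈ 𝓑

variable {P Δ : Type}

/-- The points `p` with `(p, j) ∈ X`. -/
def fib (X : Set (P × Δ)) (j : Δ) : Set P := {p | (p, j) ∈ X}

/-- The block set of `D(D̃, e)` on `P × Δ`. -/
def blowup (𝓑 : Set (Set P)) (Δ : Type) : Set (Set (P × Δ)) :=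
  {X | ∃ i, fib X i ∈ 𝓑 ∧ ∀ j ≠ i, (fib X j).ncard = 1}

theorem lemA {α : Type} [Finite α] (c : α → Δ) (k : ℕ) (hk : 2 ≤ k) (Y : Set α) (x x' : α)
    (hc : c x ≠ c x') (a a' : Δ) (h1 : {y ∈ insert x Y | c y = a}.ncard = k)
    (h2 : ∀ b ≠ a, {y ∈ insert x Y | c y = b}.ncard = 1)
    (h1' : {y ∈ insert x' Y | c y = a'}.ncard = k)
    (h2' : ∀ b ≠ a', {y ∈ insert x' Y | c y = b}.ncard = 1) (hx : x ∉ Y) (hx' : x' ∉ Y) :
    k = 2 ∧ ∀ b, {y ∈ Y | c y = b}.ncard = 1 := by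
  classical
  have e : ∀ z ∉ Y, ∀ b, {y ∈ insert z Y | c y = b}.ncard =
      {y ∈ Y | c y = b}.ncard + if c z = b then 1 else 0 := fun z hz b => by
    split_ifs with h
    · rw [← ncard_insert_of_notMem (a := z) (fun h => hz h.1)]
      congr 1
      ext y
      simp only [mem_ofPred_eq, mem_insert_iff]
      constructor
      · rintro ⟨h1 | h1, h2⟩
        exacts [.inl h1, .inr ⟨h1, h2⟩]
      · rintro (rfl | ⟨h1, h2⟩)
        exacts [⟨.inl rfl, h⟩, ⟨.inr h1, h2⟩]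
    · congr 1
      ext y
      simp only [mem_ofPred_eq, mem_insert_iff]
      constructor
      · rintro ⟨rfl | h1, h2⟩
        exacts [absurd h2 h, ⟨h1, h2⟩]
      · exact fun ⟨h1, h2⟩ => ⟨.inr h1, h2⟩
  simp only [e x hx] at h1 h2
  simp only [e x' hx'] at h1' h2'
  have ha : c x = a := by
    by_contra h
    have t1 := h2 _ h
    rw [if_pos rfl] at t1
    by_cases h' : c x = a'
    · rw [← h', if_neg hc.symm] at h1'
      omega
    · have t2 := h2' _ h'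
      rw [if_neg hc.symm] at t2
      omega
  have ha' : c x' = a' := by
    by_contra h
    have t1 := h2' _ h
    rw [if_pos rfl] at t1
    have t2 := h2 _ (ha ▸ hc.symm)
    rw [if_neg hc] at t2
    omega
  subst ha ha'
  have t1 := h2' _ hc
  rw [if_neg hc.symm] at t1
  rw [if_pos rfl] at h1
  refine ⟨by omega, fun b => ?_⟩
  by_cases h : b = c x
  · rw [h]; omega
  · have := h2 b h
    rw [if_neg (Ne.symm h)] at this
    omega

theorem fib_card (σ : Equiv.Perm (P × Δ)) (X : Set (P × Δ)) (b : Δ) :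
    (fib (σ '' X) b).ncard = {y ∈ X | (σ y).2 = b}.ncard := by
  rw [← ncard_image_of_injective _ σ.injective,
    ← ncard_image_of_injective _ (Prod.mk_left_injective b)]
  congr 1
  ext z
  constructor
  · rintro ⟨p, ⟨y, h1, h2⟩, rfl⟩
    exact ⟨y, ⟨h1, by rw [h2]⟩, h2⟩
  · rintro ⟨y, ⟨h1, rfl⟩, rfl⟩
    exact ⟨(σ y).1, ⟨y, h1, rfl⟩, rfl⟩

open Classical in
def blk (i : Δ) (B : Set P) (f : Δ → P) : Set (P × Δ) :=
  {x | if x.2 = i then x.1 ∈ B else x.1 = f x.2}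

theorem fib_blk (i : Δ) (B : Set P) (f : Δ → P) : fib (blk i B f) i = B := by
  ext p; simp [fib, blk]

theorem fib_blk' (i : Δ) (B : Set P) (f : Δ → P) (j : Δ) (h : j ≠ i) :
    (fib (blk i B f) j).ncard = 1 := by
  rw [show fib (blk i B f) j = {f j} by ext p; simp [fib, blk, h], ncard_singleton]

theorem mono [Finite P] [Finite Δ] (𝓑 : Set (Set P)) (k : ℕ) (hk : 2 ≤ k)
    (hB : ∀ B ∈ 𝓑, B.ncard = k) (B : Set P) (h0 : B ∈ 𝓑) (he : 2 ≤ Nat.card Δ)
    (h3 : 3 ≤ Nat.card Δ ∨ 3 ≤ k) (σ : Equiv.Perm (P × Δ)) (hσ : IsAut (blowup 𝓑 Δ) σ)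
    (p q : P) (j : Δ) : (σ (p, j)).2 = (σ (q, j)).2 := by
  classical
  by_contra hc
  have key : ∀ i ≠ j, ∀ f : Δ → P, k = 2 ∧
      ∀ b, {y ∈ {x ∈ blk i B f | x.2 ≠ j} | (σ y).2 = b}.ncard = 1 := fun i hi f => by
    have t : ∀ p, ∃ a, {y ∈ insert (p, j) {x ∈ blk i B f | x.2 ≠ j} | (σ y).2 = a}.ncard = k ∧
        ∀ b ≠ a, {y ∈ insert (p, j) {x ∈ blk i B f | x.2 ≠ j} | (σ y).2 = b}.ncard = 1 := by
      intro p
      have e : insert (p, j) {x ∈ blk i B f | x.2 ≠ j} = blk i B (Function.update f j p) := by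
        ext ⟨u, l⟩
        by_cases h : l = j
        · subst h
          simp [blk, hi.symm]
        · simp [blk, h]
      obtain ⟨a, h1, h2⟩ := (hσ (blk i B (Function.update f j p))).2
        ⟨i, by rwa [fib_blk], fib_blk' _ _ _⟩
      rw [e]
      exact ⟨a, by rw [← fib_card, hB _ h1], fun b hb => by rw [← fib_card, h2 b hb]⟩
    obtain ⟨a, h1, h2⟩ := t p
    obtain ⟨a', h1', h2'⟩ := t q
    exact lemA (fun y => (σ y).2) k hk _ _ _ hc a a' h1 h2 h1' h2' (fun h => h.2 rfl)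
      (fun h => h.2 rfl)
  have := Fintype.ofFinite Δ
  rw [Nat.card_eq_fintype_card] at he h3
  obtain ⟨i, hi⟩ := Fintype.exists_ne_of_one_lt_card he j
  obtain rfl := (key i hi fun _ => p).1
  obtain ⟨l, hl⟩ : ∃ l, l ∉ ({i, j} : Finset Δ) := by
    by_contra h
    push Not at h
    have t1 := Finset.card_le_card (fun x _ => h x : Finset.univ ⊆ ({i, j} : Finset Δ))
    have t2 := Finset.card_le_two (a := i) (b := j)
    rw [Finset.card_univ] at t1
    omega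
  simp only [Finset.mem_insert, Finset.mem_singleton, not_or] at hl
  obtain ⟨u, v, huv, e⟩ := ncard_eq_two.1 (hB B h0)
  have inj : ∀ i ≠ j, ∀ f : Δ → P, ∀ y z, y ∈ blk i B f → y.2 ≠ j → z ∈ blk i B f → z.2 ≠ j →
      (σ y).2 = (σ z).2 → y = z := fun i hi f y z h1 h2 h3 h4 h5 =>
    (ncard_le_one_iff (toFinite _)).1 ((key i hi f).2 (σ z).2).le ⟨⟨h1, h2⟩, h5⟩ ⟨⟨h3, h4⟩, rfl⟩
  have t1 : (σ (v, i)).2 ≠ (σ (u, i)).2 := fun h =>
    huv (congrArg Prod.fst (inj i hi (fun _ => p) _ _ (by simp [blk, e]) hi (by simp [blk, e]) hi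
      h)).symm
  obtain ⟨y, hy⟩ := ncard_eq_one.1 ((key l hl.2 (Function.update (fun _ => u) i v)).2 (σ (u, i)).2)
  obtain ⟨⟨y1, y2⟩, y3⟩ := (hy ▸ mem_singleton y :
    y ∈ {y ∈ {x ∈ blk l B (Function.update (fun _ => u) i v) | x.2 ≠ j} | (σ y).2 = (σ (u, i)).2})
  obtain ⟨w, m⟩ := y
  by_cases h : m = i
  · subst h
    have : w = v := by simpa [blk, Ne.symm hl.1] using y1
    exact t1 (this ▸ y3)
  · refine h (congrArg Prod.snd (inj l hl.2 (fun _ => u) (w, m) (u, i) ?_ y2 ?_ hi y3))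
    · simpa [blk, h] using y1
    · simp [blk, Ne.symm hl.1]

theorem fib_im (σ : Equiv.Perm (P × Δ)) (g : Δ → Equiv.Perm P) (τ : Equiv.Perm Δ)
    (h : ∀ p j, σ (p, j) = (g j p, τ j)) (X : Set (P × Δ)) (j : Δ) :
    fib (σ '' X) (τ j) = g j '' fib X j := by
  ext p
  constructor
  · rintro ⟨⟨q, l⟩, h1, h2⟩
    rw [h, Prod.mk.injEq] at h2
    obtain rfl := τ.injective h2.2
    exact ⟨q, h1, h2.1⟩
  · rintro ⟨q, h1, rfl⟩
    exact ⟨(q, j), h1, h _ _⟩

/-- The automorphism group of `D(D̃, e)` is `Aut(D̃) ≀ S_e` when `e ≥ 3` or `k ≥ 3`. -/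
theorem result (P Δ : Type) [Finite P] [Finite Δ] (𝓑 : Set (Set P)) (k r : ℕ) (hk : 2 ≤ k)
    (hr : 1 ≤ r) (hB : ∀ B ∈ 𝓑, B.ncard = k) (hP : ∀ p, {B ∈ 𝓑 | p ∈ B}.ncard = r)
    (he : 2 ≤ Nat.card Δ) (h3 : 3 ≤ Nat.card Δ ∨ 3 ≤ k) (σ : Equiv.Perm (P × Δ)) :
    IsAut (blowup 𝓑 Δ) σ ↔ ∃ (g : Δ → Equiv.Perm P) (τ : Equiv.Perm Δ),
      (∀ j, IsAut 𝓑 (g j)) ∧ ∀ p j, σ (p, j) = (g j p, τ j) := by
  constructor
  · intro hσ
    rcases isEmpty_or_nonempty P with hp | ⟨⟨p0⟩⟩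
    · exact ⟨1, 1, fun j X => by simp, fun p => hp.elim p⟩
    obtain ⟨B, h0, -⟩ := nonempty_of_ncard_ne_zero (s := {B ∈ 𝓑 | p0 ∈ B}) (by rw [hP]; omega)
    have hm := mono 𝓑 k hk hB B h0 he h3 σ hσ
    let τ : Equiv.Perm Δ := Equiv.ofBijective (fun j => (σ (p0, j)).2)
      (Finite.surjective_iff_bijective.1 fun b => by
        obtain ⟨⟨q, l⟩, h⟩ := σ.surjective (p0, b)
        exact ⟨l, (hm p0 q l).trans (congrArg Prod.snd h)⟩)
    let g : Δ → Equiv.Perm P := fun j => Equiv.ofBijective (fun p => (σ (p, j)).1)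
      (Finite.injective_iff_bijective.1 fun p q h =>
        congrArg Prod.fst (σ.injective (Prod.ext h (hm p q j))))
    have h : ∀ p j, σ (p, j) = (g j p, τ j) := fun p j => Prod.ext rfl (hm p p0 j)
    refine ⟨g, τ, fun j X => ?_, h⟩
    have t := hσ (blk j X fun _ => p0)
    have e := fib_im σ g τ h (blk j X fun _ => p0)
    have c : (g j '' X).ncard = X.ncard := ncard_image_of_injective _ (g j).injective
    constructor
    · intro hX
      obtain ⟨i, h1, h2⟩ := t.1 ⟨τ j, by rwa [e, fib_blk], fun l hl => by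
        obtain ⟨l, rfl⟩ := τ.surjective l
        rw [e, ncard_image_of_injective _ (g l).injective, fib_blk' _ _ _ _ fun h => hl (congrArg τ h)]⟩
      by_cases hi : j = i
      · rwa [← hi, fib_blk] at h1
      · have := h2 j hi
        rw [fib_blk, ← c, hB _ hX] at this
        omega
    · intro hX
      obtain ⟨i, h1, h2⟩ := t.2 ⟨j, by rwa [fib_blk], fib_blk' _ _ _⟩
      by_cases hi : τ j = i
      · rwa [← hi, e, fib_blk] at h1
      · have := h2 _ hi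
        rw [e, fib_blk, c, hB _ hX] at this
        omega
  · rintro ⟨g, τ, h1, h2⟩ X
    have e := fib_im σ g τ h2 X
    constructor
    · rintro ⟨i, k1, k2⟩
      obtain ⟨i, rfl⟩ := τ.surjective i
      refine ⟨i, (h1 i _).1 (e i ▸ k1), fun j hj => ?_⟩
      rw [← ncard_image_of_injective _ (g j).injective, ← e, k2 _ (τ.injective.ne hj)]
    · rintro ⟨i, k1, k2⟩
      refine ⟨τ i, e i ▸ (h1 i _).2 k1, fun j hj => ?_⟩
      obtain ⟨j, rfl⟩ := τ.surjective j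
      rw [e, ncard_image_of_injective _ (g j).injective, k2 _ fun h => hj (h ▸ rfl)]

end Pool.Agent.Results.MP_482303_co.WreathAut
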